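import Pool.Agent.Helper17.CL.Rec

/-!
# Project CL, module O: ordinal arithmetic is amenable
-/

open ZFSet

universe u₁ u₂ u₃

namespace Pool.Agent.Helper17.CL

/-- The decoding: every `δ ≠ 0` is `ω ^ b * (ω * a + (m + 1))` for exactly one `(b, a, m)`. -/
noncomputable def odec (δ : Ordinal.{0}) : Ordinal.{0} × Ordinal.{0} × ℕ :=
  open Classical in
  if h : ∃ p : Ordinal.{0} × Ordinal.{0} × ℕ,
      δ = Ordinal.omega0 ^ p.1 * (Ordinal.omega0 * p.2.1 + ((p.2.2 : Ordinal.{0}) + 1)) then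
    h.choose else (0, 0, 0)

/-- The relation decoded by `odec`. -/
def ORel (δ : Ordinal.{0}) (p : Ordinal.{0} × Ordinal.{0} × ℕ) : Prop :=
  δ = Ordinal.omega0 ^ p.1 * (Ordinal.omega0 * p.2.1 + ((p.2.2 : Ordinal.{0}) + 1))

theorem natSucc_lt_omega (m : ℕ) : (m : Ordinal.{0}) + 1 < Ordinal.omega0 := by
  have h1 := Ordinal.natCast_lt_omega0 (m + 1)
  rw [Nat.cast_add, Nat.cast_one] at h1
  exact h1

theorem orel_not_lt {b b' a a' : Ordinal.{0}} {m m' : ℕ} (hb : b < b')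
    (h : Ordinal.omega0 ^ b * (Ordinal.omega0 * a + ((m : Ordinal.{0}) + 1)) =
      Ordinal.omega0 ^ b' * (Ordinal.omega0 * a' + ((m' : Ordinal.{0}) + 1))) : False := by
  obtain ⟨c, hc⟩ : Ordinal.omega0 ^ (b + 1) ∣ Ordinal.omega0 ^ b' :=
    Ordinal.opow_dvd_opow _ (by
      rw [← Order.succ_eq_add_one]
      exact Order.succ_le_of_lt hb)
  rw [hc, Ordinal.opow_add_one, mul_assoc, mul_assoc] at h
  have hpos : (0 : Ordinal.{0}) < Ordinal.omega0 ^ b := Ordinal.opow_pos _ Ordinal.omega0_pos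
  have h2 := (mul_left_cancel_iff_of_pos hpos).1 h
  have h3 := congrArg (fun x => x % Ordinal.omega0) h2
  rw [Ordinal.mul_mod, Ordinal.mul_add_mod_self,
    Ordinal.mod_eq_of_lt (natSucc_lt_omega m)] at h3
  exact (ne_of_gt (lt_of_lt_of_le zero_lt_one (le_add_of_nonneg_left zero_le))) h3

theorem orel_unique {δ : Ordinal.{0}} {p q : Ordinal.{0} × Ordinal.{0} × ℕ} (hp : ORel δ p)
    (hq : ORel δ q) : p = q := by
  obtain ⟨b, a, m⟩ := p
  obtain ⟨b', a', m'⟩ := q
  unfold ORel at hp hq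
  simp only at hp hq
  have hb : b = b' := by
    rcases lt_trichotomy b b' with h1 | h1 | h1
    · exact (orel_not_lt h1 (hp.symm.trans hq)).elim
    · exact h1
    · exact (orel_not_lt h1 (hq.symm.trans hp)).elim
  subst hb
  have hpos : (0 : Ordinal.{0}) < Ordinal.omega0 ^ b := Ordinal.opow_pos _ Ordinal.omega0_pos
  have h2 := (mul_left_cancel_iff_of_pos hpos).1 (hp.symm.trans hq)
  have h3 := congrArg (fun x => x % Ordinal.omega0) h2
  have h4 := congrArg (fun x => x / Ordinal.omega0) h2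
  rw [Ordinal.mul_add_mod_self, Ordinal.mul_add_mod_self,
    Ordinal.mod_eq_of_lt (natSucc_lt_omega m), Ordinal.mod_eq_of_lt (natSucc_lt_omega m')] at h3
  rw [Ordinal.mul_add_div _ Ordinal.omega0_ne_zero, Ordinal.mul_add_div _ Ordinal.omega0_ne_zero,
    Ordinal.div_eq_zero_of_lt (natSucc_lt_omega m),
    Ordinal.div_eq_zero_of_lt (natSucc_lt_omega m'), add_zero, add_zero] at h4
  have h5 : m = m' := by
    have h6 : ((m + 1 : ℕ) : Ordinal.{0}) = ((m' + 1 : ℕ) : Ordinal.{0}) := by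
      rw [Nat.cast_add, Nat.cast_one, Nat.cast_add, Nat.cast_one]
      exact h3
    have h7 := Nat.cast_injective h6
    omega
  rw [h4, h5]

theorem odec_eq {δ : Ordinal.{0}} {p : Ordinal.{0} × Ordinal.{0} × ℕ} (hp : ORel δ p) :
    odec δ = p := by
  have h : ∃ p : Ordinal.{0} × Ordinal.{0} × ℕ,
      δ = Ordinal.omega0 ^ p.1 * (Ordinal.omega0 * p.2.1 + ((p.2.2 : Ordinal.{0}) + 1)) := ⟨p, hp⟩
  unfold odec
  rw [dif_pos h]
  exact orel_unique h.choose_spec hp

theorem odec_iff {δ : Ordinal.{0}} {p : Ordinal.{0} × Ordinal.{0} × ℕ} :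
    odec δ = p ↔ ORel δ p ∨ ((∀ q, ¬ ORel δ q) ∧ p = (0, 0, 0)) := by
  by_cases h : ∃ q, ORel δ q
  · obtain ⟨q, hq⟩ := h
    rw [odec_eq hq]
    constructor
    · rintro rfl
      exact Or.inl hq
    · rintro (h1 | ⟨h1, _⟩)
      · exact orel_unique hq h1
      · exact (h1 q hq).elim
  · have h1 : odec δ = (0, 0, 0) := by
      unfold odec
      exact dif_neg h
    rw [h1]
    constructor
    · rintro rfl
      exact Or.inr ⟨fun q hq => h ⟨q, hq⟩, rfl⟩
    · rintro (h2 | ⟨_, h2⟩)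
      · exact (h ⟨p, h2⟩).elim
      · exact h2.symm

/-- with the code `ω ^ b * (ω * a + (m + 2))` for `m` replaced by `m + 1`: the components are
smaller than the code -/
theorem odec_surj (b a : Ordinal.{0}) (m : ℕ) :
    ∃ δ : Ordinal.{0}, b < δ ∧ a < δ ∧ odec δ = (b, a, m + 1) := by
  refine ⟨Ordinal.omega0 ^ b * (Ordinal.omega0 * a + (((m + 1 : ℕ) : Ordinal.{0}) + 1)), ?_, ?_,
    odec_eq rfl⟩
  · have h1 : (1 : Ordinal.{0}) < Ordinal.omega0 * a + (((m + 1 : ℕ) : Ordinal.{0}) + 1) := by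
      refine lt_of_lt_of_le ?_ (le_add_of_nonneg_left zero_le)
      rw [← Nat.cast_one, ← Nat.cast_add]
      exact Nat.cast_lt.2 (by omega)
    have hpos : (0 : Ordinal.{0}) < Ordinal.omega0 ^ b := Ordinal.opow_pos _ Ordinal.omega0_pos
    calc b ≤ Ordinal.omega0 ^ b := Ordinal.right_le_opow b Ordinal.one_lt_omega0
      _ = Ordinal.omega0 ^ b * 1 := (mul_one _).symm
      _ < _ := (mul_lt_mul_iff_right₀ hpos).2 h1
  · have h1 : a ≤ Ordinal.omega0 * a := Ordinal.le_mul_right a Ordinal.omega0_pos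
    have h2 : Ordinal.omega0 * a < Ordinal.omega0 * a + (((m + 1 : ℕ) : Ordinal.{0}) + 1) :=
      lt_add_of_pos_right _ (lt_of_lt_of_le zero_lt_one (le_add_of_nonneg_left zero_le))
    have hpos : (0 : Ordinal.{0}) < Ordinal.omega0 ^ b := Ordinal.opow_pos _ Ordinal.omega0_pos
    exact lt_of_lt_of_le (lt_of_le_of_lt h1 h2) (Ordinal.le_mul_right _ hpos)

/-! ### The recursion equations -/

theorem add_eq_least (p o : Ordinal.{0}) :
    p + o = sInf {s | p ≤ s ∧ ∀ a < o, p + a + 1 ≤ s} := by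
  refine le_antisymm (le_csInf ⟨p + o, le_add_of_nonneg_right zero_le, ?_⟩ ?_)
    (csInf_le' ⟨le_add_of_nonneg_right zero_le, ?_⟩)
  · intro a ha
    rw [← Order.succ_eq_add_one]
    exact Order.succ_le_of_lt (add_lt_add_right ha p)
  · rintro s ⟨h1, h2⟩
    by_cases ho : o = 0
    · rw [ho, add_zero]
      exact h1
    · rw [Ordinal.add_le_iff ho]
      intro d hd
      exact lt_of_lt_of_le (lt_add_of_pos_right _ zero_lt_one) (h2 d hd)
  · intro a ha
    rw [← Order.succ_eq_add_one]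
    exact Order.succ_le_of_lt (add_lt_add_right ha p)

theorem mul_eq_least (p o : Ordinal.{0}) :
    p * o = sInf {s | 0 ≤ s ∧ ∀ a < o, p * a + p ≤ s} := by
  have h0 : ∀ a < o, p * a + p ≤ p * o := by
    intro a ha
    rw [← mul_add_one]
    refine mul_le_mul_right ?_ p
    rw [← Order.succ_eq_add_one]
    exact Order.succ_le_of_lt ha
  refine le_antisymm (le_csInf ⟨p * o, zero_le, h0⟩ ?_) (csInf_le' ⟨zero_le, h0⟩)
  rintro s ⟨h1, h2⟩
  rcases Ordinal.zero_or_succ_or_isSuccLimit o with h | ⟨a, h⟩ | h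
  · rw [h, mul_zero]
    exact h1
  · subst h
    have h3 := h2 a (Order.lt_succ a)
    rw [Order.succ_eq_add_one, mul_add_one]
    exact h3
  · rw [Ordinal.mul_le_iff_of_isSuccLimit h]
    intro b hb
    exact le_trans (le_add_of_nonneg_right zero_le) (h2 b hb)

theorem opow_eq_least (o : Ordinal.{0}) :
    Ordinal.omega0 ^ o = sInf {s : Ordinal.{0} | 1 ≤ s ∧
      ∀ a < o, Ordinal.omega0 ^ a * Ordinal.omega0 ≤ s} := by
  have h0 : ∀ a < o, Ordinal.omega0 ^ a * Ordinal.omega0 ≤ Ordinal.omega0.{0} ^ o := by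
    intro a ha
    rw [← Ordinal.opow_add_one]
    refine Ordinal.opow_le_opow_right Ordinal.omega0_pos ?_
    rw [← Order.succ_eq_add_one]
    exact Order.succ_le_of_lt ha
  have h1 : (1 : Ordinal.{0}) ≤ Ordinal.omega0 ^ o :=
    Order.one_le_iff_pos.2 (Ordinal.opow_pos _ Ordinal.omega0_pos)
  refine le_antisymm (le_csInf ⟨_, h1, h0⟩ ?_) (csInf_le' ⟨h1, h0⟩)
  rintro s ⟨h1, h2⟩
  rcases Ordinal.zero_or_succ_or_isSuccLimit o with h | ⟨a, h⟩ | h
  · rw [h, Ordinal.opow_zero]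
    exact h1
  · subst h
    have h3 := h2 a (Order.lt_succ a)
    rw [Order.succ_eq_add_one, Ordinal.opow_add_one]
    exact h3
  · rw [Ordinal.opow_le_of_isSuccLimit Ordinal.omega0_ne_zero h]
    intro b hb
    exact le_trans (Ordinal.le_mul_left _ Ordinal.omega0_pos) (h2 b hb)

section O

variable {M : Set ZFSet.{0}} (h : IsInner M)
variable {α : Type u₁} {β : Type u₂}
variable [Cod α] [Cod β]

include h

/-- the least ordinal with a given property -/
theorem AmF.least {R : α → Ordinal.{0} → Prop} (hR : Am M (fun q : α × Ordinal.{0} => R q.1 q.2)) :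
    AmF M (fun x => sInf {o | R x o}) := by
  refine AmF.mk' (fun x _ => h.ord_mem _) ?_
  have h1 : Am M (fun q : α × Ordinal.{0} => ∀ o' : Ordinal.{0}, R q.1 o' → ¬ o' < q.2) := by
    refine Am.allA h (R := fun (q : α × Ordinal.{0}) (o' : Ordinal.{0}) => R q.1 o' → ¬ o' < q.2) ?_
    refine Am.imp h ?_ (Am.not h (Am.ordLt h (AmF.snd h) ((AmF.snd h).comp h (AmF.fst h))))
    exact hR.comp h (f := fun q : (α × Ordinal.{0}) × Ordinal.{0} => (q.1.1, q.2))
      (((AmF.fst h).comp h (AmF.fst h)).prod h (AmF.snd h))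
  have h2 : Am M (fun q : α × Ordinal.{0} => ∀ o' : Ordinal.{0}, ¬ R q.1 o') := by
    refine Am.allA h (R := fun (q : α × Ordinal.{0}) (o' : Ordinal.{0}) => ¬ R q.1 o') ?_
    refine Am.not h ?_
    exact hR.comp h (f := fun q : (α × Ordinal.{0}) × Ordinal.{0} => (q.1.1, q.2))
      (((AmF.fst h).comp h (AmF.fst h)).prod h (AmF.snd h))
  refine ((hR.and h h1).or h (h2.and h (Am.eq h (AmF.snd h)
    (AmF.const h (0 : Ordinal.{0}) (h.ord_mem 0))))).congr h fun q _ => ?_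
  obtain ⟨x, o⟩ := q
  simp only
  by_cases hx : ∃ o', R x o'
  · have hne : {o | R x o}.Nonempty := hx
    constructor
    · rintro rfl
      exact Or.inl ⟨csInf_mem hne, fun o' ho' => not_lt.2 (csInf_le' ho')⟩
    · rintro (⟨h3, h4⟩ | ⟨h3, _⟩)
      · exact le_antisymm (csInf_le' h3) (not_lt.1 (h4 _ (csInf_mem hne)))
      · obtain ⟨o', ho'⟩ := hx
        exact (h3 o' ho').elim
  · have he : {o | R x o} = ∅ := by
      ext o'
      simp only [Set.mem_ofPred_eq, Set.mem_empty_iff_false, iff_false]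
      exact fun ho' => hx ⟨o', ho'⟩
    rw [he, Ordinal.sInf_empty]
    constructor
    · intro h3
      exact Or.inr ⟨fun o' ho' => hx ⟨o', ho'⟩, h3.symm⟩
    · rintro (⟨h3, _⟩ | ⟨_, h3⟩)
      · exact (hx ⟨o, h3⟩).elim
      · exact h3.symm

theorem AmF.leastNat {R : α → ℕ → Prop} (hR : Am M (fun q : α × ℕ => R q.1 q.2)) :
    AmF M (fun x => sInf {n | R x n}) := by
  refine AmF.mk' (fun x _ => AbsCod.mem h _) ?_
  have h1 : Am M (fun q : α × ℕ => ∀ o' : ℕ, R q.1 o' → ¬ o' < q.2) := by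
    refine Am.allA h (R := fun (q : α × ℕ) (o' : ℕ) => R q.1 o' → ¬ o' < q.2) ?_
    refine Am.imp h ?_ (Am.not h (Am.natLt h (AmF.snd h) ((AmF.snd h).comp h (AmF.fst h))))
    exact hR.comp h (f := fun q : (α × ℕ) × ℕ => (q.1.1, q.2))
      (((AmF.fst h).comp h (AmF.fst h)).prod h (AmF.snd h))
  have h2 : Am M (fun q : α × ℕ => ∀ o' : ℕ, ¬ R q.1 o') := by
    refine Am.allA h (R := fun (q : α × ℕ) (o' : ℕ) => ¬ R q.1 o') ?_
    refine Am.not h ?_
    exact hR.comp h (f := fun q : (α × ℕ) × ℕ => (q.1.1, q.2))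
      (((AmF.fst h).comp h (AmF.fst h)).prod h (AmF.snd h))
  refine ((hR.and h h1).or h (h2.and h (Am.eq h (AmF.snd h)
    (AmF.const h (0 : ℕ) (AbsCod.mem h 0))))).congr h fun q _ => ?_
  obtain ⟨x, o⟩ := q
  simp only
  by_cases hx : ∃ o', R x o'
  · have hne : {o | R x o}.Nonempty := hx
    constructor
    · rintro rfl
      exact Or.inl ⟨Nat.sInf_mem hne, fun o' ho' => not_lt.2 (Nat.sInf_le ho')⟩
    · rintro (⟨h3, h4⟩ | ⟨h3, _⟩)
      · exact le_antisymm (Nat.sInf_le h3) (not_lt.1 (h4 _ (Nat.sInf_mem hne)))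
      · obtain ⟨o', ho'⟩ := hx
        exact (h3 o' ho').elim
  · have he : {o | R x o} = ∅ := by
      ext o'
      simp only [Set.mem_ofPred_eq, Set.mem_empty_iff_false, iff_false]
      exact fun ho' => hx ⟨o', ho'⟩
    rw [he, Nat.sInf_empty]
    constructor
    · intro h3
      exact Or.inr ⟨fun o' ho' => hx ⟨o', ho'⟩, h3.symm⟩
    · rintro (⟨h3, _⟩ | ⟨_, h3⟩)
      · exact (hx ⟨o, h3⟩).elim
      · exact h3.symm

/-- the supremum of an amenable function on the ordinals below a bound -/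
theorem AmF.supLt {g : α → Ordinal.{0}} {f : α → Ordinal.{0} → Ordinal.{0}} (hg : AmF M g)
    (hf : AmF M (fun q : α × Ordinal.{0} => f q.1 q.2)) :
    AmF M (fun x => ⨆ a : Set.Iio (g x), (f x a + 1)) := by
  have h1 : (fun x => ⨆ a : Set.Iio (g x), (f x a + 1)) =
      fun x => sInf {s | ∀ a, a < g x → f x a < s} := by
    funext x
    have h2 : ∀ s : Ordinal.{0}, (⨆ a : Set.Iio (g x), (f x a + 1)) ≤ s ↔
        ∀ a, a < g x → f x a < s := by
      intro s
      rw [ciSup_le_iff' (Ordinal.bddAbove_of_small)]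
      constructor
      · intro h3 a ha
        exact lt_of_lt_of_le (lt_add_of_pos_right _ zero_lt_one) (h3 ⟨a, ha⟩)
      · rintro h3 ⟨a, ha⟩
        rw [← Order.succ_eq_add_one]
        exact Order.succ_le_of_lt (h3 a ha)
    refine le_antisymm (le_csInf ⟨_, (h2 _).1 le_rfl⟩ fun s hs => (h2 s).2 hs)
      (csInf_le' ((h2 _).1 le_rfl))
  rw [h1]
  refine AmF.least h (R := fun x s => ∀ a, a < g x → f x a < s) ?_
  refine Am.allA h (R := fun (q : α × Ordinal.{0}) (a : Ordinal.{0}) =>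
    a < g q.1 → f q.1 a < q.2) ?_
  refine Am.imp h (Am.ordLt h (AmF.snd h) (hg.comp h ((AmF.fst h).comp h (AmF.fst h)))) ?_
  refine Am.ordLt h ?_ ((AmF.snd h).comp h (AmF.fst h))
  exact hf.comp h (f := fun q : (α × Ordinal.{0}) × Ordinal.{0} => (q.1.1, q.2))
    (((AmF.fst h).comp h (AmF.fst h)).prod h (AmF.snd h))

/-- Recursion of the form `F p o = sup (G p) (K p a (F p a) : a < o)`. -/
theorem AmF.rec_sup {G : α → Ordinal.{0}} {K : α → Ordinal.{0} → Ordinal.{0} → Ordinal.{0}}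
    (hG : AmF M G) (hK : AmF M (fun q : α × Ordinal.{0} × Ordinal.{0} => K q.1 q.2.1 q.2.2))
    {F : α → Ordinal.{0} → Ordinal.{0}}
    (hF : ∀ p o, F p o = sInf {s | G p ≤ s ∧ ∀ a < o, K p a (F p a) ≤ s}) :
    AmF M (fun q : α × Ordinal.{0} => F q.1 q.2) := by
  have h1 : AmF M (fun q : α × Ordinal.{0} => (fun p o => (F p o).toZFSet) q.1 q.2) := by
    refine AmF.rec_ord h (H := fun p o g =>
      (sInf {s : Ordinal.{0} | (¬ s < G p) ∧ ∀ a : Ordinal.{0}, a < o →
        ¬ s < K p a (CL.ordOf (CL.app g a.toZFSet))}).toZFSet) ?_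
      (F := fun p o => (F p o).toZFSet) ?_
    · refine (AmF.code (α := Ordinal.{0}) h).comp h ?_
      refine AmF.least h (R := fun (q : α × Ordinal.{0} × ZFSet.{0}) (s : Ordinal.{0}) =>
        (¬ s < G q.1) ∧ ∀ a : Ordinal.{0}, a < q.2.1 →
        ¬ s < K q.1 a (CL.ordOf (CL.app q.2.2 a.toZFSet))) ?_
      refine Am.and h (Am.not h (Am.ordLt h (AmF.snd h)
        (hG.comp h ((AmF.fst h).comp h (AmF.fst h))))) ?_
      refine Am.allA h (R := fun (q : (α × Ordinal.{0} × ZFSet.{0}) × Ordinal.{0})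
        (a : Ordinal.{0}) => a < q.1.2.1 →
        ¬ q.2 < K q.1.1 a (CL.ordOf (CL.app q.1.2.2 a.toZFSet))) ?_
      refine Am.imp h (Am.ordLt h (AmF.snd h) ((AmF.fst h).comp h ((AmF.snd h).comp h
        ((AmF.fst h).comp h (AmF.fst h))))) (Am.not h (Am.ordLt h
          ((AmF.snd h).comp h (AmF.fst h)) ?_))
      refine hK.comp h (f := fun q : ((α × Ordinal.{0} × ZFSet.{0}) × Ordinal.{0}) × Ordinal.{0} =>
        (q.1.1.1, q.2, CL.ordOf (CL.app q.1.1.2.2 q.2.toZFSet))) ?_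
      refine AmF.prod h ((AmF.fst h).comp h ((AmF.fst h).comp h (AmF.fst h)))
        (AmF.prod h (AmF.snd h) (AmF.ordOf h (AmF.app h ?_ ?_)))
      · exact (AmF.snd h).comp h ((AmF.snd h).comp h ((AmF.fst h).comp h (AmF.fst h)))
      · exact (AmF.code (α := Ordinal.{0}) h).comp h (AmF.snd h)
    · intro p o
      rw [hF]
      congr 2
      ext s
      simp only [Set.mem_ofPred_eq, not_lt]
      refine and_congr_right fun _ => forall_congr' fun a => forall_congr' fun ha => ?_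
      rw [CL.app_gro ha, ordOf_toZFSet]
  have h2 := AmF.ordOf h h1
  simp only [ordOf_toZFSet] at h2
  exact h2

/-- the code of `a + b` is `a ∪ {a + b' : b' < b}`; `AmF.rec_ord` -/
theorem AmF.ordAdd {f g : α → Ordinal.{0}} (hf : AmF M f) (hg : AmF M g) :
    AmF M (fun x => f x + g x) := by
  have h1 : AmF M (fun q : Ordinal.{0} × Ordinal.{0} =>
      (fun p o : Ordinal.{0} => p + o) q.1 q.2) := by
    refine AmF.rec_sup h (G := fun p : Ordinal.{0} => p) (K := fun _ _ v => v + 1)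
      (F := fun p o : Ordinal.{0} => p + o) (AmF.id h) ?_ add_eq_least
    exact AmF.ordSucc h ((AmF.snd h).comp h (AmF.snd h))
  exact h1.comp₂ h (k := fun p o : Ordinal.{0} => p + o) hf hg

/-- the code of `a * b` is `{a * b' + c : b' < b, c < a}` -/
theorem AmF.ordMul {f g : α → Ordinal.{0}} (hf : AmF M f) (hg : AmF M g) :
    AmF M (fun x => f x * g x) := by
  have h1 : AmF M (fun q : Ordinal.{0} × Ordinal.{0} =>
      (fun p o : Ordinal.{0} => p * o) q.1 q.2) := by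
    refine AmF.rec_sup h (G := fun _ : Ordinal.{0} => (0 : Ordinal.{0})) (K := fun p _ v => v + p)
      (F := fun p o : Ordinal.{0} => p * o) (AmF.const h _ (h.ord_mem 0)) ?_ mul_eq_least
    exact AmF.ordAdd h ((AmF.snd h).comp h (AmF.snd h)) (AmF.fst h)
  exact h1.comp₂ h (k := fun p o : Ordinal.{0} => p * o) hf hg

theorem AmF.omegaPow {f : α → Ordinal.{0}} (hf : AmF M f) :
    AmF M (fun x => Ordinal.omega0 ^ f x) := by
  have h1 : AmF M (fun q : Ordinal.{0} × Ordinal.{0} =>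
      (fun _ o : Ordinal.{0} => Ordinal.omega0.{0} ^ o) q.1 q.2) := by
    refine AmF.rec_sup h (G := fun _ : Ordinal.{0} => (1 : Ordinal.{0}))
      (K := fun _ _ v => v * Ordinal.omega0)
      (F := fun _ o : Ordinal.{0} => Ordinal.omega0.{0} ^ o)
      (AmF.const h _ (h.ord_mem 1)) ?_ (fun _ o => opow_eq_least o)
    exact AmF.ordMul h ((AmF.snd h).comp h (AmF.snd h))
      (AmF.const h _ (h.ord_mem Ordinal.omega0))
  exact h1.comp₂ h (k := fun _ o : Ordinal.{0} => Ordinal.omega0.{0} ^ o) hf hf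

theorem AmF.odec {f : α → Ordinal.{0}} (hf : AmF M f) : AmF M (fun x => CL.odec (f x)) := by
  have hm : ∀ (o : Ordinal.{0} × Ordinal.{0} × ℕ), Cod.code o ∈ M := fun o => AbsCod.mem h o
  have hR : Am M (fun q : Ordinal.{0} × (Ordinal.{0} × Ordinal.{0} × ℕ) => ORel q.1 q.2) := by
    unfold ORel
    refine Am.eq h (AmF.fst h) (AmF.ordMul h (AmF.omegaPow h ((AmF.fst h).comp h (AmF.snd h)))
      (AmF.ordAdd h (AmF.ordMul h (AmF.const h _ (h.ord_mem Ordinal.omega0))
        ((AmF.fst h).comp h ((AmF.snd h).comp h (AmF.snd h))))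
        (AmF.ordSucc h ((AmF.natCast h).comp h
          ((AmF.snd h).comp h ((AmF.snd h).comp h (AmF.snd h)))))))
  have h1 : AmF M (fun δ : Ordinal.{0} => CL.odec δ) := by
    refine AmF.mk' (fun x _ => hm _) ?_
    have h2 : Am M (fun q : Ordinal.{0} × (Ordinal.{0} × Ordinal.{0} × ℕ) =>
        ∀ p : Ordinal.{0} × Ordinal.{0} × ℕ, ¬ ORel q.1 p) := by
      refine Am.allA h (R := fun (q : Ordinal.{0} × (Ordinal.{0} × Ordinal.{0} × ℕ))
        (p : Ordinal.{0} × Ordinal.{0} × ℕ) => ¬ ORel q.1 p) ?_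
      refine Am.not h ?_
      exact hR.comp h (f := fun q : (Ordinal.{0} × (Ordinal.{0} × Ordinal.{0} × ℕ)) ×
        (Ordinal.{0} × Ordinal.{0} × ℕ) => (q.1.1, q.2))
        (((AmF.fst h).comp h (AmF.fst h)).prod h (AmF.snd h))
    refine (hR.or h (h2.and h (Am.eq h (AmF.snd h) (AmF.const h (((0 : Ordinal.{0}),
      (0 : Ordinal.{0}), (0 : ℕ))) (hm _))))).congr h fun q _ => ?_
    exact odec_iff
  exact h1.comp h hf

end O

end Pool.Agent.Helper17.CL
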